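import Mathlib
import Pool.Agent.Helper259.AbsHt

/-!
# Affine heights of algebraic numbers
-/

set_option autoImplicit false

namespace Pool.Agent.Q16.MH

open NumberField Height Module
open Pool.Agent.Helper259.AbsHt Pool.Agent.Helper259.HtPoly

/-- the affine height of an algebraic number -/
noncomputable def ha (x : Qbar) : ℝ := absLogHeight ![1, x]

lemma ha_nonneg (x : Qbar) : 0 ≤ ha x := absLogHeight_nonneg _

lemma ha_eq (L : IntermediateField ℚ Qbar) [NumberField L] (x : L) :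
    ha (x : Qbar) = logHeight₁ x / finrank ℚ L := by
  have h1 := val_eq L ![1, x]
  have h2 : (fun i => (((![1, x] : Fin 2 → L) i : L) : Qbar)) = ![1, (x : Qbar)] := by
    funext i
    fin_cases i <;> simp
  rw [h2] at h1
  rw [ha, h1]
  congr 1
  rw [logHeight₁_eq_logHeight]
  apply le_antisymm
  · have := logHeight_comp_le ![(1 : Fin 2), 0] ![x, 1]
    have e : (![x, 1] ∘ ![(1 : Fin 2), 0]) = ![1, x] := by
      funext i; fin_cases i <;> simp
    rwa [e] at this
  · have := logHeight_comp_le ![(1 : Fin 2), 0] ![1, x]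
    have e : (![1, x] ∘ ![(1 : Fin 2), 0]) = ![x, 1] := by
      funext i; fin_cases i <;> simp
    rwa [e] at this

lemma ha_add (x y : Qbar) : ha (x + y) ≤ Real.log 2 + ha x + ha y := by
  obtain ⟨L, hL, hmem⟩ := exists_nf {x, y} (by simp)
  have hx := hmem x (by simp)
  have hy := hmem y (by simp)
  have h1 := ha_eq L (⟨x, hx⟩ + ⟨y, hy⟩)
  have h2 := ha_eq L ⟨x, hx⟩
  have h3 := ha_eq L ⟨y, hy⟩
  have h4 := logHeight₁_add_le (⟨x, hx⟩ : L) ⟨y, hy⟩
  rw [NumberField.totalWeight_eq_finrank] at h4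
  have hpos := finrank_pos' L
  have h5 : (((⟨x, hx⟩ + ⟨y, hy⟩ : L) : L) : Qbar) = x + y := rfl
  rw [h5] at h1
  have h6 : ((⟨x, hx⟩ : L) : Qbar) = x := rfl
  have h7 : ((⟨y, hy⟩ : L) : Qbar) = y := rfl
  rw [h6] at h2
  rw [h7] at h3
  rw [h1, h2, h3, div_le_iff₀ hpos]
  calc _ ≤ _ := h4
    _ = _ := by field_simp

lemma ha_mul (x y : Qbar) : ha (x * y) ≤ ha x + ha y := by
  obtain ⟨L, hL, hmem⟩ := exists_nf {x, y} (by simp)
  have hx := hmem x (by simp)
  have hy := hmem y (by simp)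
  have h1 := ha_eq L (⟨x, hx⟩ * ⟨y, hy⟩)
  have h2 := ha_eq L ⟨x, hx⟩
  have h3 := ha_eq L ⟨y, hy⟩
  have h4 := logHeight₁_mul_le (⟨x, hx⟩ : L) ⟨y, hy⟩
  have hpos := finrank_pos' L
  have h5 : (((⟨x, hx⟩ * ⟨y, hy⟩ : L) : L) : Qbar) = x * y := rfl
  rw [h5] at h1
  have h6 : ((⟨x, hx⟩ : L) : Qbar) = x := rfl
  have h7 : ((⟨y, hy⟩ : L) : Qbar) = y := rfl
  rw [h6] at h2
  rw [h7] at h3
  rw [h1, h2, h3, div_le_iff₀ hpos]
  calc _ ≤ _ := h4
    _ = _ := by field_simp

lemma ha_inv (x : Qbar) : ha x⁻¹ = ha x := by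
  obtain ⟨L, hL, hmem⟩ := exists_nf {x} (by simp)
  have hx := hmem x (by simp)
  have h1 := ha_eq L (⟨x, hx⟩)⁻¹
  have h2 := ha_eq L ⟨x, hx⟩
  rw [logHeight₁_inv] at h1
  have h5 : (((⟨x, hx⟩ : L)⁻¹ : L) : Qbar) = x⁻¹ := rfl
  rw [h5] at h1
  have h6 : ((⟨x, hx⟩ : L) : Qbar) = x := rfl
  rw [h6] at h2
  rw [h1, h2]

lemma ha_neg (x : Qbar) : ha (-x) ≤ ha (-1) + ha x := by
  have := ha_mul (-1) x
  rwa [neg_one_mul] at this

open Polynomial in
/-- heights of roots of monic polynomials -/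
lemma ha_root (n : ℕ) : ∃ C : ℝ, ∀ (c : Fin n → Qbar) (α : Qbar),
    α ^ n + ∑ i : Fin n, c i * α ^ (i : ℕ) = 0 → ha α ≤ C + ∑ i : Fin n, ha (c i) := by
  obtain ⟨C, hC⟩ := absLogHeight_root n
  refine ⟨C + ha 1, fun c α hα => ?_⟩
  let P : Qbar[X] := X ^ n + ∑ i : Fin n, Polynomial.C (c i) * X ^ (i : ℕ)
  have hco : ∀ j : ℕ, P.coeff j = (if j = n then 1 else 0) + ∑ i : Fin n, if j = (i : ℕ) then c i else 0 := by
    intro j
    simp only [P, coeff_add, finset_sum_coeff, coeff_C_mul, coeff_X_pow, mul_ite, mul_one, mul_zero]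
  have hcn : P.coeff n = 1 := by
    rw [hco, if_pos rfl, Finset.sum_eq_zero, add_zero]
    intro i _
    rw [if_neg]
    have := i.2
    omega
  have hci : ∀ i : Fin n, P.coeff i = c i := by
    intro i
    rw [hco, if_neg (by have := i.2; omega), zero_add, Finset.sum_eq_single i]
    · rw [if_pos rfl]
    · intro b _ hb
      rw [if_neg]
      intro h
      exact hb (Fin.ext h.symm)
    · intro h
      exact absurd (Finset.mem_univ _) h
  have hP0 : P ≠ 0 := by
    intro h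
    rw [h, coeff_zero] at hcn
    exact zero_ne_one hcn
  have hdeg : P.natDegree ≤ n := by
    rw [natDegree_le_iff_coeff_eq_zero]
    intro j hj
    rw [hco, if_neg (by omega), zero_add, Finset.sum_eq_zero]
    intro i _
    rw [if_neg]
    have := i.2
    omega
  have hev : P.eval α = 0 := by
    simp only [P, eval_add, eval_pow, eval_X, eval_finset_sum, eval_mul, eval_C]
    exact hα
  have h1 := hC P α hP0 hdeg hev
  have h2 := absLogHeight_le_sum (cv n P)
  have h3 : ∑ i : Fin (n + 1), absLogHeight ![1, cv n P i] = ∑ i : Fin n, ha (c i) + ha 1 := by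
    rw [Fin.sum_univ_castSucc]
    congr 1
    · refine Finset.sum_congr rfl fun i _ => ?_
      have : cv n P i.castSucc = c i := by
        simp only [cv, Fin.val_castSucc]
        exact hci i
      rw [this]
      rfl
    · have : cv n P (Fin.last n) = 1 := by
        simp only [cv, Fin.val_last]
        exact hcn
      rw [this]
      rfl
  rw [h3] at h2
  show absLogHeight ![1, α] ≤ _
  linarith

end Pool.Agent.Q16.MH
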