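import Pool.Agent.Q16.MH.Aff

/-!
# Solutions of bounded height of polynomial systems
-/

set_option autoImplicit false

namespace Pool.Agent.Q16.MH

open Filter MvPolynomial
open Pool.Agent.Helper259.AbsHt

/-- the ultrapower of the algebraic numbers -/
abbrev UQ : Type := Filter.Germ (hyperfilter ℕ : Filter ℕ) Qbar

/-- sequences with heights bounded by a multiple of `b` -/
def Bdd (b : ℕ → ℝ) (u : ℕ → Qbar) : Prop :=
  ∃ C : ℝ, ∀ᶠ n in (hyperfilter ℕ : Filter ℕ), ha (u n) ≤ C * b n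

section field

variable (b : ℕ → ℝ) (hb : ∀ n, 1 ≤ b n)

include hb

lemma Bdd.add {u w : ℕ → Qbar} (hu : Bdd b u) (hw : Bdd b w) : Bdd b (u + w) := by
  obtain ⟨C, hC⟩ := hu
  obtain ⟨D, hD⟩ := hw
  refine ⟨Real.log 2 + C + D, ?_⟩
  filter_upwards [hC, hD] with n h1 h2
  have h3 := ha_add (u n) (w n)
  have h4 : Real.log 2 ≤ Real.log 2 * b n :=
    le_mul_of_one_le_right (Real.log_nonneg (by norm_num)) (hb n)
  show ha (u n + w n) ≤ _
  linarith

omit hb in
lemma Bdd.mul {u w : ℕ → Qbar} (hu : Bdd b u) (hw : Bdd b w) : Bdd b (u * w) := by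
  obtain ⟨C, hC⟩ := hu
  obtain ⟨D, hD⟩ := hw
  refine ⟨C + D, ?_⟩
  filter_upwards [hC, hD] with n h1 h2
  have h3 := ha_mul (u n) (w n)
  show ha (u n * w n) ≤ _
  linarith

lemma Bdd.const (c : Qbar) : Bdd b (fun _ => c) := by
  refine ⟨ha c, ?_⟩
  filter_upwards with n
  exact le_mul_of_one_le_right (ha_nonneg c) (hb n)

omit hb in
lemma Bdd.inv {u : ℕ → Qbar} (hu : Bdd b u) : Bdd b (u⁻¹) := by
  obtain ⟨C, hC⟩ := hu
  refine ⟨C, ?_⟩
  filter_upwards [hC] with n h1
  show ha (u n)⁻¹ ≤ _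
  rw [ha_inv]
  exact h1

lemma Bdd.neg {u : ℕ → Qbar} (hu : Bdd b u) : Bdd b (-u) := by
  have h1 := (Bdd.const b hb (-1)).mul b hu
  have h2 : (fun _ => (-1 : Qbar)) * u = -u := by
    funext n
    show -1 * u n = -u n
    ring
  rwa [h2] at h1

/-- the field of bounded germs -/
def LF : Subfield UQ where
  carrier := {g | ∃ u : ℕ → Qbar, (u : UQ) = g ∧ Bdd b u}
  mul_mem' := by
    rintro _ _ ⟨u, rfl, hu⟩ ⟨w, rfl, hw⟩
    exact ⟨u * w, rfl, hu.mul b hw⟩
  one_mem' := ⟨fun _ => 1, rfl, Bdd.const b hb 1⟩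
  add_mem' := by
    rintro _ _ ⟨u, rfl, hu⟩ ⟨w, rfl, hw⟩
    exact ⟨u + w, rfl, hu.add b hb hw⟩
  zero_mem' := ⟨fun _ => 0, rfl, Bdd.const b hb 0⟩
  neg_mem' := by
    rintro _ ⟨u, rfl, hu⟩
    exact ⟨-u, rfl, hu.neg b hb⟩
  inv_mem' := by
    rintro _ ⟨u, rfl, hu⟩
    exact ⟨u⁻¹, rfl, hu.inv b⟩

lemma mem_LF (g : UQ) : g ∈ LF b hb ↔ ∃ u : ℕ → Qbar, (u : UQ) = g ∧ Bdd b u := Iff.rfl

lemma exists_root_aux (d : ℕ) (hd : 0 < d) (c : Fin d → ℕ → Qbar) (hc : ∀ i, Bdd b (c i)) :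
    ∃ α : ℕ → Qbar, Bdd b α ∧
      (α : UQ) ^ d + ∑ i : Fin d, (c i : UQ) * (α : UQ) ^ (i : ℕ) = 0 := by
  have h1 : ∀ n : ℕ, ∃ α : Qbar, α ^ d + ∑ i : Fin d, c i n * α ^ (i : ℕ) = 0 := by
    intro n
    let P : Polynomial Qbar := Polynomial.X ^ d + ∑ i : Fin d, Polynomial.C (c i n) * Polynomial.X ^ (i : ℕ)
    have hdeg : (∑ i : Fin d, Polynomial.C (c i n) * Polynomial.X ^ (i : ℕ)).degree <
        (d : WithBot ℕ) := Polynomial.degree_sum_fin_lt (fun i => c i n)
    have hP : P.degree = d := by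
      rw [Polynomial.degree_add_eq_left_of_degree_lt]
      · exact Polynomial.degree_X_pow d
      · rw [Polynomial.degree_X_pow]
        exact hdeg
    obtain ⟨α, hα⟩ := IsAlgClosed.exists_root P (by rw [hP]; exact_mod_cast hd.ne')
    refine ⟨α, ?_⟩
    rw [Polynomial.IsRoot.def] at hα
    simpa [P, Polynomial.eval_finset_sum] using hα
  choose α hα using h1
  obtain ⟨C, hC⟩ := ha_root d
  choose D hD using hc
  refine ⟨α, ⟨|C| + ∑ i, D i, ?_⟩, ?_⟩
  · have h2 : ∀ᶠ n in (hyperfilter ℕ : Filter ℕ), ∀ i, ha (c i n) ≤ D i * b n :=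
      Filter.eventually_all.mpr hD
    filter_upwards [h2] with n hn
    have h3 := hC (fun i => c i n) (α n) (hα n)
    have h4 : ∑ i : Fin d, ha (c i n) ≤ ∑ i : Fin d, D i * b n :=
      Finset.sum_le_sum fun i _ => hn i
    rw [← Finset.sum_mul] at h4
    have h5 : C ≤ |C| * b n :=
      (le_abs_self C).trans (le_mul_of_one_le_right (abs_nonneg C) (hb n))
    linarith
  · have h2 : (α : UQ) ^ d + ∑ i : Fin d, (c i : UQ) * (α : UQ) ^ (i : ℕ) =
        Germ.coeRingHom (hyperfilter ℕ : Filter ℕ) (α ^ d + ∑ i : Fin d, c i * α ^ (i : ℕ)) := by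
      rw [map_add, map_pow, map_sum]
      simp only [map_mul, map_pow]
      rfl
    have h3 : (α ^ d + ∑ i : Fin d, c i * α ^ (i : ℕ)) = 0 := by
      funext n
      have := hα n
      simpa using this
    rw [h2, h3, map_zero]

instance LF_closed : IsAlgClosed (LF b hb) := by
  apply IsAlgClosed.of_exists_root
  intro p hp hirr
  set d := p.natDegree with hd
  have hd0 : 0 < d := hirr.natDegree_pos
  have hc : ∀ i : Fin d, ∃ u : ℕ → Qbar, (u : UQ) = (p.coeff i : LF b hb) ∧ Bdd b u :=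
    fun i => (p.coeff i).2
  choose c hc1 hc2 using hc
  obtain ⟨α, hα1, hα2⟩ := exists_root_aux b hb d hd0 c hc2
  refine ⟨⟨(α : UQ), α, rfl, hα1⟩, ?_⟩
  apply Subtype.ext
  rw [Polynomial.eval_eq_sum_range, Finset.sum_range_succ, ← hd, hp.coeff_natDegree, one_mul,
    Finset.sum_range]
  refine Eq.trans ?_ hα2
  rw [add_comm]
  push_cast
  congr 1
  refine Finset.sum_congr rfl fun i _ => ?_
  rw [hc1 i]

end field

/-- a system with a solution in an extension of an algebraically closed field has a solution -/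
lemma descent {L Ω : Type*} [Field L] [IsAlgClosed L] [Field Ω] (φ : L →+* Ω)
    {σ ι : Type*} [Finite σ] (F : ι → MvPolynomial σ L) (q : MvPolynomial σ L) (x : σ → Ω)
    (hF : ∀ i, eval₂ φ x (F i) = 0) (hq : eval₂ φ x q ≠ 0) :
    ∃ z : σ → L, (∀ i, eval z (F i) = 0) ∧ eval z q ≠ 0 := by
  by_contra hcon
  push Not at hcon
  have h1 : q ∈ vanishingIdeal L (zeroLocus L (Ideal.span (Set.range F))) := by
    rw [mem_vanishingIdeal_iff]
    intro z hz
    rw [mem_zeroLocus_iff] at hz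
    have h2 : ∀ i, eval z (F i) = 0 := by
      intro i
      have := hz (F i) (Ideal.subset_span ⟨i, rfl⟩)
      rwa [aeval_eq_eval] at this
    have h3 := hcon z h2
    rw [aeval_eq_eval]
    exact h3
  rw [vanishingIdeal_zeroLocus_eq_radical] at h1
  obtain ⟨n, hn⟩ := h1
  have h2 : Ideal.span (Set.range F) ≤ RingHom.ker (eval₂Hom φ x) := by
    rw [Ideal.span_le]
    rintro _ ⟨i, rfl⟩
    exact hF i
  have h3 := h2 hn
  rw [RingHom.mem_ker, map_pow] at h3
  rcases Nat.eq_zero_or_pos n with rfl | h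
  · rw [pow_zero] at h3
    exact one_ne_zero h3
  · exact hq ((pow_eq_zero_iff h.ne').mp h3)

lemma eval₂_germ {κ : Type*} (v : κ → ℕ → Qbar) (p : MvPolynomial κ Qbar) :
    eval₂ ((Germ.coeRingHom (hyperfilter ℕ : Filter ℕ)).comp (Pi.constRingHom ℕ Qbar))
      (fun k => ((v k : ℕ → Qbar) : UQ)) p =
    ((fun n => eval (fun k => v k n) p : ℕ → Qbar) : UQ) := by
  have h1 := MvPolynomial.hom_eval₂ p (Pi.constRingHom ℕ Qbar)
    (Germ.coeRingHom (hyperfilter ℕ : Filter ℕ)) v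
  have h2 : eval₂ (Pi.constRingHom ℕ Qbar) v p = fun n => eval (fun k => v k n) p := by
    funext n
    have h3 := MvPolynomial.hom_eval₂ p (Pi.constRingHom ℕ Qbar) (Pi.evalRingHom (fun _ => Qbar) n) v
    exact h3
  rw [h2] at h1
  exact h1.symm

theorem bounded_solution {σ τ ι : Type*} [Finite σ] [Fintype τ] [Finite ι]
    (F : ι → MvPolynomial (σ ⊕ τ) Qbar) (q : MvPolynomial (σ ⊕ τ) Qbar) :
    ∃ C : ℝ, ∀ y : τ → Qbar,
      (∃ x : σ → Qbar, (∀ i, eval (Sum.elim x y) (F i) = 0) ∧ eval (Sum.elim x y) q ≠ 0) →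
      ∃ x : σ → Qbar, (∀ i, eval (Sum.elim x y) (F i) = 0) ∧ eval (Sum.elim x y) q ≠ 0 ∧
        ∀ a, ha (x a) ≤ C * (1 + ∑ t, ha (y t)) := by
  classical
  by_contra hcon
  push Not at hcon
  choose y hy1 hy2 using fun n : ℕ => hcon (n : ℝ)
  choose x hx1 hx2 using hy1
  set b : ℕ → ℝ := fun n => 1 + ∑ t, ha (y n t) with hbdef
  have hb : ∀ n, 1 ≤ b n := by
    intro n
    have : 0 ≤ ∑ t, ha (y n t) := Finset.sum_nonneg fun t _ => ha_nonneg _
    simp only [hbdef]
    linarith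
  have hY : ∀ t, Bdd b (fun n => y n t) := by
    intro t
    refine ⟨1, ?_⟩
    filter_upwards with n
    rw [one_mul]
    have : ha (y n t) ≤ ∑ t, ha (y n t) :=
      Finset.single_le_sum (f := fun t => ha (y n t)) (fun t _ => ha_nonneg _) (Finset.mem_univ t)
    simp only [hbdef]
    linarith
  -- the ring homs
  let κ : Qbar →+* UQ := (Germ.coeRingHom (hyperfilter ℕ : Filter ℕ)).comp (Pi.constRingHom ℕ Qbar)
  let κL : Qbar →+* LF b hb := κ.codRestrict (LF b hb).toSubring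
    (fun c => ⟨fun _ => c, rfl, Bdd.const b hb c⟩)
  let YL : τ → LF b hb := fun t => ⟨((fun n => y n t : ℕ → Qbar) : UQ), _, rfl, hY t⟩
  let Xg : σ → UQ := fun a => ((fun n => x n a : ℕ → Qbar) : UQ)
  -- specialisation of the polynomials
  let sp : MvPolynomial (σ ⊕ τ) Qbar →+* MvPolynomial σ (LF b hb) :=
    eval₂Hom (C.comp κL) (Sum.elim X (fun t => C (YL t)))
  have hsp : ∀ {Ω : Type} [Field Ω] (φ : LF b hb →+* Ω) (w : σ → Ω) (p : MvPolynomial (σ ⊕ τ) Qbar),
      eval₂ φ w (sp p) = eval₂ (φ.comp κL) (Sum.elim w (fun t => φ (YL t))) p := by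
    intro Ω _ φ w p
    have h1 : (eval₂Hom φ w).comp sp = eval₂Hom (φ.comp κL) (Sum.elim w (fun t => φ (YL t))) := by
      apply MvPolynomial.ringHom_ext
      · intro r
        simp [sp]
      · rintro (a | t)
        · simp [sp]
        · simp [sp]
    exact DFunLike.congr_fun h1 p
  have hval : ∀ (w : ℕ → σ → Qbar) (p : MvPolynomial (σ ⊕ τ) Qbar),
      eval₂ κ (Sum.elim (fun a => ((fun n => w n a : ℕ → Qbar) : UQ))
        (fun t => ((fun n => y n t : ℕ → Qbar) : UQ))) p =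
      ((fun n => eval (Sum.elim (w n) (y n)) p : ℕ → Qbar) : UQ) := by
    intro w p
    have h1 := eval₂_germ (fun k : σ ⊕ τ => Sum.elim (fun a n => w n a) (fun t n => y n t) k) p
    have h2 : (fun k : σ ⊕ τ => ((Sum.elim (fun a n => w n a) (fun t n => y n t) k : ℕ → Qbar) : UQ)) =
        Sum.elim (fun a => ((fun n => w n a : ℕ → Qbar) : UQ))
        (fun t => ((fun n => y n t : ℕ → Qbar) : UQ)) := by
      funext k
      rcases k with a | t <;> rfl
    rw [h2] at h1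
    have h3 : ∀ n, (fun k : σ ⊕ τ => Sum.elim (fun a n => w n a) (fun t n => y n t) k n) =
        Sum.elim (w n) (y n) := by
      intro n
      funext k
      rcases k with a | t <;> rfl
    simp only [h3] at h1
    exact h1
  obtain ⟨z, hz1, hz2⟩ := descent (LF b hb).subtype (fun i => sp (F i)) (sp q) Xg
    (by
      intro i
      rw [hsp]
      have h1 := hval x (F i)
      have h2 : (fun n => eval (Sum.elim (x n) (y n)) (F i) : ℕ → Qbar) = 0 := by
        funext n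
        exact hx1 n i
      rw [h2] at h1
      exact h1)
    (by
      rw [hsp]
      have h1 := hval x q
      intro h2
      have h3 : ((fun n => eval (Sum.elim (x n) (y n)) q : ℕ → Qbar) : UQ) = 0 := h1.symm.trans h2
      have h4 : ∀ᶠ n in (hyperfilter ℕ : Filter ℕ), eval (Sum.elim (x n) (y n)) q = 0 :=
        Germ.coe_eq.mp h3
      obtain ⟨n, hn⟩ := h4.exists
      exact hx2 n hn)
  -- representatives
  choose u hu1 hu2 using fun a => (z a).2
  choose D hD using hu2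
  have hzval : ∀ p : MvPolynomial (σ ⊕ τ) Qbar, ((eval z (sp p) : LF b hb) : UQ) =
      ((fun n => eval (Sum.elim (fun a => u a n) (y n)) p : ℕ → Qbar) : UQ) := by
    intro p
    rw [← hval (fun n a => u a n) p]
    have h1 : ((eval z (sp p) : LF b hb) : UQ) = eval₂ (LF b hb).subtype
        (fun a => (z a : UQ)) (sp p) := by
      have := MvPolynomial.hom_eval₂ (sp p) (RingHom.id (LF b hb)) (LF b hb).subtype z
      exact this
    rw [h1, hsp]
    congr 1
    funext k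
    rcases k with a | t
    · exact (hu1 a).symm
    · rfl
  have e1 : ∀ᶠ n in (hyperfilter ℕ : Filter ℕ), ∀ i,
      eval (Sum.elim (fun a => u a n) (y n)) (F i) = 0 := by
    rw [Filter.eventually_all]
    intro i
    have h1 := hzval (F i)
    rw [hz1 i] at h1
    exact Germ.coe_eq.mp h1.symm
  have e2 : ∀ᶠ n in (hyperfilter ℕ : Filter ℕ),
      eval (Sum.elim (fun a => u a n) (y n)) q ≠ 0 := by
    refine (Ultrafilter.eventually_not (f := hyperfilter ℕ)).mpr ?_
    intro h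
    apply hz2
    apply Subtype.ext
    have h1 := hzval q
    rw [h1]
    exact Germ.coe_eq.mpr h
  have e3 : ∀ᶠ n in (hyperfilter ℕ : Filter ℕ), ∀ a, ha (u a n) ≤ D a * b n :=
    Filter.eventually_all.mpr hD
  have e4 : ∀ᶠ n : ℕ in (hyperfilter ℕ : Filter ℕ), ∀ a, D a ≤ (n : ℝ) := by
    rw [Filter.eventually_all]
    intro a
    have h1 : ∀ᶠ n : ℕ in atTop, D a ≤ (n : ℝ) := by
      obtain ⟨m, hm⟩ := exists_nat_ge (D a)
      filter_upwards [eventually_ge_atTop m] with n hn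
      exact hm.trans (by exact_mod_cast hn)
    exact h1.filter_mono Nat.hyperfilter_le_atTop
  obtain ⟨n, h1, h2, h3, h4⟩ := (e1.and (e2.and (e3.and e4))).exists
  obtain ⟨a, ha'⟩ := hy2 n (fun a => u a n) h1 h2
  have h5 := h3 a
  have h6 : D a * b n ≤ n * b n := mul_le_mul_of_nonneg_right (h4 a) (by linarith [hb n])
  have h7 : ha (u a n) ≤ n * b n := h5.trans h6
  exact absurd h7 (not_le.mpr ha')

end Pool.Agent.Q16.MH
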